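import Pool.Agent.H466.HD.SA
import Pool.Graph.R_seed8.H437R2.A1

/-!
# Replacing the piece of zeta by its Gaussian cut-off (project HD of helper466)
-/

set_option autoImplicit false

namespace Pool.Agent.H127.HD.NA

open Complex MeasureTheory Set Filter Topology
open Pool.Agent.H466.HD
open scoped ComplexConjugate
open Pool.Agent.H477.E (MT bc Nn)

theorem zt_bd (y : ℝ) : ‖Zt y‖ ≤ 15 * (1 + |y|) := by
  unfold Zt
  set s : ℂ := 1 / 2 + (y : ℂ) * I with hs
  have hre : s.re = 1 / 2 := by simp [hs]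
  have him : s.im = y := by simp [hs]
  have hs1 : s ≠ 1 := by
    intro h
    rw [h] at hre
    norm_num at hre
  have h1 := Pool.Agent.H437R2.z1_norm_le (s := s) (by rw [hre])
  rw [Pool.Agent.H437R2.z1_of_ne hs1, norm_mul] at h1
  have h2 : ‖s - 1‖ = ‖s‖ := by
    have e : s - 1 = -(conj s) := by
      apply Complex.ext
      · rw [Complex.sub_re, Complex.neg_re, Complex.conj_re, hre, Complex.one_re]
        norm_num
      · rw [Complex.sub_im, Complex.neg_im, Complex.conj_im, him, Complex.one_im]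
        ring
    rw [e, norm_neg, Complex.norm_conj]
  rw [h2] at h1
  have h3 : 1 / 2 ≤ ‖s‖ := by
    have := Complex.abs_re_le_norm s
    rw [hre] at this
    rwa [abs_of_pos (by norm_num)] at this
  have h4 : ‖s‖ ≤ 1 / 2 + |y| := by
    have := Complex.norm_le_abs_re_add_abs_im s
    rw [hre, him] at this
    rwa [abs_of_pos (by norm_num)] at this
  have h5 : ‖s‖ * ‖riemannZeta s‖ ≤ ‖s‖ * (3 * (‖s‖ + 4)) := by
    refine h1.trans ?_
    nlinarith
  have h6 := le_of_mul_le_mul_left h5 (by linarith)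
  have := abs_nonneg y
  linarith

theorem zt_cont : Continuous Zt := by
  rw [continuous_iff_continuousAt]
  intro t
  have h1 : (1 / 2 + (t : ℂ) * I) ≠ 1 := by
    intro h
    have := congrArg Complex.re h
    simp at this
  have h2 := (differentiableAt_riemannZeta h1).continuousAt
  exact ContinuousAt.comp (f := fun t : ℝ => 1 / 2 + (t : ℂ) * I) h2
    (by fun_prop : Continuous fun t : ℝ => 1 / 2 + (t : ℂ) * I).continuousAt

theorem ker_int {w : ℝ} (hw : 1 ≤ w) : Integrable (fun v : ℝ => w * (1 + (w * v) ^ 2)⁻¹) ∧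
    ∫ v : ℝ, w * (1 + (w * v) ^ 2)⁻¹ = Real.pi := by
  have hw0 : 0 < w := by linarith
  constructor
  · exact (integrable_inv_one_add_sq.comp_mul_left' hw0.ne').const_mul w
  · rw [integral_const_mul, Measure.integral_comp_mul_left (fun x : ℝ => (1 + x ^ 2)⁻¹) w,
      integral_univ_inv_one_add_sq, abs_of_pos (inv_pos.2 hw0), smul_eq_mul]
    field_simp

theorem conv_bd {K : ℝ → ℂ} {A w : ℝ} (hw : 1 ≤ w) (hA : 0 ≤ A)
    (hb : ∀ v, ‖K v‖ ≤ A * (w / (1 + w * |v|) ^ 10)) (y v : ℝ) :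
    ‖Zt (y + v) * K v‖ ≤ 15 * A * (1 + |y|) * (w * (1 + (w * v) ^ 2)⁻¹) := by
  have hw0 : 0 < w := by linarith
  have hx : 0 ≤ w * |v| := by positivity
  have h1 : ‖Zt (y + v)‖ ≤ 15 * ((1 + |y|) * (1 + w * |v|)) := by
    refine (zt_bd _).trans ?_
    have h2 := abs_add_le y v
    have h3 : |v| ≤ w * |v| := le_mul_of_one_le_left (abs_nonneg v) hw
    nlinarith [abs_nonneg y, abs_nonneg v, mul_nonneg (abs_nonneg y) hx]
  have h4 : (1 + w * |v|) * (w / (1 + w * |v|) ^ 10) ≤ w * (1 + (w * v) ^ 2)⁻¹ := by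
    have e1 : (w * v) ^ 2 = (w * |v|) ^ 2 := by rw [mul_pow, mul_pow, sq_abs]
    rw [e1]
    set x := w * |v| with hxd
    have e2 : (1 + x) * (w / (1 + x) ^ 10) = w * ((1 + x) ^ 9)⁻¹ := by
      have : 0 < 1 + x := by linarith
      field_simp
    rw [e2]
    apply mul_le_mul_of_nonneg_left _ hw0.le
    apply inv_anti₀ (by positivity)
    calc 1 + x ^ 2 ≤ (1 + x) ^ 2 := by nlinarith
      _ ≤ (1 + x) ^ 9 := pow_le_pow_right₀ (by linarith) (by norm_num)
  rw [norm_mul]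
  calc ‖Zt (y + v)‖ * ‖K v‖ ≤ 15 * ((1 + |y|) * (1 + w * |v|)) *
        (A * (w / (1 + w * |v|) ^ 10)) :=
        mul_le_mul h1 (hb v) (norm_nonneg _) (by positivity)
    _ = 15 * A * (1 + |y|) * ((1 + w * |v|) * (w / (1 + w * |v|) ^ 10)) := by ring
    _ ≤ _ := mul_le_mul_of_nonneg_left h4 (by positivity)

theorem conv_all {K : ℝ → ℂ} (hK : Continuous K) {A w : ℝ} (hw : 1 ≤ w) (hA : 0 ≤ A)
    (hb : ∀ v, ‖K v‖ ≤ A * (w / (1 + w * |v|) ^ 10)) :
    Continuous (fun y : ℝ => ∫ v : ℝ, Zt (y + v) * K v) ∧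
    (∀ y : ℝ, Integrable (fun v : ℝ => Zt (y + v) * K v)) ∧
    ∀ y : ℝ, ‖∫ v : ℝ, Zt (y + v) * K v‖ ≤ 15 * A * (1 + |y|) * Real.pi := by
  obtain ⟨hi, hI⟩ := ker_int hw
  have hc : ∀ y : ℝ, Continuous (fun v : ℝ => Zt (y + v) * K v) := fun y =>
    (zt_cont.comp (continuous_const.add continuous_id)).mul hK
  refine ⟨?_, ?_, ?_⟩
  · rw [continuous_iff_continuousAt]
    intro y₀
    apply continuousAt_of_dominated
      (bound := fun v => 15 * A * (1 + (|y₀| + 1)) * (w * (1 + (w * v) ^ 2)⁻¹))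
    · exact Eventually.of_forall fun y => (hc y).aestronglyMeasurable
    · filter_upwards [Metric.ball_mem_nhds y₀ one_pos] with y hy
      refine Eventually.of_forall fun v => ?_
      refine (conv_bd hw hA hb y v).trans ?_
      have h1 : |y| ≤ |y₀| + 1 := by
        rw [Metric.mem_ball, Real.dist_eq] at hy
        have := abs_sub_abs_le_abs_sub y y₀
        linarith
      have h2 : 0 ≤ w * (1 + (w * v) ^ 2)⁻¹ := by positivity
      apply mul_le_mul_of_nonneg_right _ h2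
      apply mul_le_mul_of_nonneg_left _ (by positivity)
      linarith
    · exact hi.const_mul _
    · refine Eventually.of_forall fun v => ?_
      exact ((zt_cont.comp (continuous_id.add continuous_const)).mul continuous_const).continuousAt
  · intro y
    refine Integrable.mono' (hi.const_mul (15 * A * (1 + |y|))) (hc y).aestronglyMeasurable ?_
    exact Eventually.of_forall fun v => conv_bd hw hA hb y v
  · intro y
    rw [← hI, ← integral_const_mul]
    exact norm_integral_le_of_norm_le (hi.const_mul _)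
      (Eventually.of_forall fun v => conv_bd hw hA hb y v)

/-! ### the kernels -/

section kernels

variable {β : ℝ → ℝ} {k : ℝ → ℂ} {C0 : ℝ} (hB : Bump β k C0)

include hB

theorem kn_cont (c w : ℝ) : Continuous (Kn k c w) := by
  unfold Kn
  have := hB.kcont
  fun_prop

theorem kn_bd {c w : ℝ} (hw : 1 ≤ w) (v : ℝ) :
    ‖Kn k c w v‖ ≤ C0 * (w / (1 + w * |v|) ^ 10) := by
  have hw0 : 0 < w := by linarith
  unfold Kn
  rw [norm_mul, norm_mul, Complex.norm_real, Real.norm_of_nonneg hw0.le]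
  have h1 : ‖cexp (I * c * v)‖ = 1 := by
    have e : (I * c * v : ℂ) = ((c * v : ℝ) : ℂ) * I := by push_cast; ring
    rw [e, Complex.norm_exp_ofReal_mul_I]
  rw [h1, mul_one]
  have h2 := hB.kbd (w * v)
  rw [abs_mul, abs_of_pos hw0] at h2
  calc w * ‖k (w * v)‖ ≤ w * (C0 / (1 + w * |v|) ^ 10) := mul_le_mul_of_nonneg_left h2 hw0.le
    _ = _ := by ring

end kernels

/-- The Gaussian cut-off. -/
noncomputable def E (μ v : ℝ) : ℝ := Real.exp (-v ^ 2 / (8 * μ))

theorem E_cont (μ : ℝ) : Continuous (E μ) := by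
  unfold E
  fun_prop

theorem E_pos (μ v : ℝ) : 0 < E μ v := Real.exp_pos _

theorem E_le {μ : ℝ} (hμ : 0 < μ) (v : ℝ) : E μ v ≤ 1 := by
  unfold E
  rw [Real.exp_le_one_iff]
  have : 0 ≤ v ^ 2 / (8 * μ) := by positivity
  have e : -v ^ 2 / (8 * μ) = -(v ^ 2 / (8 * μ)) := by ring
  rw [e]
  linarith

theorem E_ge (μ v : ℝ) : 1 - E μ v ≤ v ^ 2 / (8 * μ) := by
  unfold E
  have := Real.add_one_le_exp (-v ^ 2 / (8 * μ))
  have e : -v ^ 2 / (8 * μ) = -(v ^ 2 / (8 * μ)) := by ring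
  rw [e] at this ⊢
  linarith

/-- the two kernels -/
noncomputable def K1 (k : ℝ → ℂ) (c w μ v : ℝ) : ℂ := Kn k c w v * ((1 - E μ v : ℝ) : ℂ)

noncomputable def K2 (k : ℝ → ℂ) (c w μ v : ℝ) : ℂ := Kn k c w v * ((E μ v : ℝ) : ℂ)

theorem DG_eq (k : ℝ → ℂ) (c w μ y : ℝ) : DG k c w μ y = ∫ v : ℝ, Zt (y + v) * K2 k c w μ v := by
  unfold DG K2 E
  refine integral_congr_ae (Eventually.of_forall fun v => ?_)
  show _ = _
  simp only
  rw [mul_assoc]

section kernels2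

variable {β : ℝ → ℝ} {k : ℝ → ℂ} {C0 : ℝ} (hB : Bump β k C0)

include hB

theorem K1_cont (c w μ : ℝ) : Continuous (K1 k c w μ) := by
  unfold K1
  exact (kn_cont hB c w).mul (continuous_ofReal.comp (continuous_const.sub (E_cont μ)))

theorem K2_cont (c w μ : ℝ) : Continuous (K2 k c w μ) := by
  unfold K2
  exact (kn_cont hB c w).mul (continuous_ofReal.comp (E_cont μ))

theorem K1_bd {c w μ : ℝ} (hw : 1 ≤ w) (hμ : 0 < μ) (v : ℝ) :
    ‖K1 k c w μ v‖ ≤ C0 * (w / (1 + w * |v|) ^ 10) := by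
  unfold K1
  rw [norm_mul, Complex.norm_real, Real.norm_of_nonneg (by linarith [E_le hμ v])]
  refine (mul_le_of_le_one_right (norm_nonneg _) ?_).trans (kn_bd hB hw v)
  linarith [E_pos μ v]

theorem K2_bd {c w μ : ℝ} (hw : 1 ≤ w) (hμ : 0 < μ) (v : ℝ) :
    ‖K2 k c w μ v‖ ≤ C0 * (w / (1 + w * |v|) ^ 10) := by
  unfold K2
  rw [norm_mul, Complex.norm_real, Real.norm_of_nonneg (E_pos μ v).le]
  exact (mul_le_of_le_one_right (norm_nonneg _) (E_le hμ v)).trans (kn_bd hB hw v)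

omit hB in
theorem cmp {ε L w : ℝ} (hε : 0 < ε) (hε1 : ε ≤ 1) (hL : 0 < L) (hw : ε * L ≤ w) (v : ℝ) :
    ε ^ 8 * (1 + L * |v|) ^ 8 ≤ (1 + w * |v|) ^ 8 := by
  rw [← mul_pow]
  apply pow_le_pow_left₀ (by positivity)
  have := mul_le_mul_of_nonneg_right hw (abs_nonneg v)
  nlinarith

theorem K2_bd2 {ε L c w μ : ℝ} (hε : 0 < ε) (hε1 : ε ≤ 1) (hL : 0 < L) (hw1 : 1 ≤ w)
    (hw : ε * L ≤ w) (hwL : w ≤ L) (hμ : 0 < μ) (v : ℝ) :
    ‖K2 k c w μ v‖ ≤ C0 / ε ^ 8 * L / (1 + L * |v|) ^ 8 := by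
  refine (K2_bd hB hw1 hμ v).trans ?_
  have h1 := cmp hε hε1 hL hw v
  have hC := hB.Cp
  have hx : 0 ≤ w * |v| := by positivity
  have h2 : w / (1 + w * |v|) ^ 10 ≤ L / (ε ^ 8 * (1 + L * |v|) ^ 8) := by
    have h3 : (1 + w * |v|) ^ 8 ≤ (1 + w * |v|) ^ 10 := pow_le_pow_right₀ (by linarith) (by norm_num)
    exact div_le_div₀ hL.le hwL (by positivity) (h1.trans h3)
  calc C0 * (w / (1 + w * |v|) ^ 10) ≤ C0 * (L / (ε ^ 8 * (1 + L * |v|) ^ 8)) :=
        mul_le_mul_of_nonneg_left h2 hC.le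
    _ = _ := by
      have : 0 < 1 + L * |v| := by positivity
      field_simp

theorem K1_bd2 {ε L c w μ : ℝ} (hε : 0 < ε) (hε1 : ε ≤ 1) (hL : 0 < L) (hw1 : 1 ≤ w)
    (hw : ε * L ≤ w) (hμ : 0 < μ) (v : ℝ) :
    ‖K1 k c w μ v‖ ≤ C0 / (8 * ε ^ 9) / (μ * L ^ 2) * L / (1 + L * |v|) ^ 8 := by
  have h1 := cmp hε hε1 hL hw v
  have hC := hB.Cp
  have hw0 : 0 < w := by linarith
  have hx : 0 ≤ w * |v| := by positivity
  have h2 : ‖K1 k c w μ v‖ ≤ C0 * (w / (1 + w * |v|) ^ 10) * (v ^ 2 / (8 * μ)) := by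
    unfold K1
    rw [norm_mul, Complex.norm_real, Real.norm_of_nonneg (by linarith [E_le hμ v])]
    exact mul_le_mul (kn_bd hB hw1 v) (E_ge μ v) (by linarith [E_le hμ v]) (by positivity)
  refine h2.trans ?_
  have h3 : w / (1 + w * |v|) ^ 10 * v ^ 2 ≤ 1 / (ε * L * (ε ^ 8 * (1 + L * |v|) ^ 8)) := by
    have e : w / (1 + w * |v|) ^ 10 * v ^ 2 = (w * |v|) ^ 2 / (w * (1 + w * |v|) ^ 10) := by
      have : 0 < 1 + w * |v| := by linarith
      rw [mul_pow, sq_abs]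
      field_simp
    rw [e]
    have h4 : (w * |v|) ^ 2 / (w * (1 + w * |v|) ^ 10) ≤ 1 / (w * (1 + w * |v|) ^ 8) := by
      rw [div_le_div_iff₀ (by positivity) (by positivity)]
      have h5 : (w * |v|) ^ 2 ≤ (1 + w * |v|) ^ 2 := pow_le_pow_left₀ hx (by linarith) 2
      calc (w * |v|) ^ 2 * (w * (1 + w * |v|) ^ 8) ≤ (1 + w * |v|) ^ 2 * (w * (1 + w * |v|) ^ 8) :=
            mul_le_mul_of_nonneg_right h5 (by positivity)
        _ = 1 * (w * (1 + w * |v|) ^ 10) := by ring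
    refine h4.trans ?_
    apply one_div_le_one_div_of_le (by positivity)
    exact mul_le_mul hw h1 (by positivity) hw0.le
  calc C0 * (w / (1 + w * |v|) ^ 10) * (v ^ 2 / (8 * μ)) =
        C0 / (8 * μ) * (w / (1 + w * |v|) ^ 10 * v ^ 2) := by
        field_simp
    _ ≤ C0 / (8 * μ) * (1 / (ε * L * (ε ^ 8 * (1 + L * |v|) ^ 8))) :=
        mul_le_mul_of_nonneg_left h3 (by positivity)
    _ = _ := by
      have : 0 < 1 + L * |v| := by positivity
      field_simp

/-- the difference -/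
theorem diff_eq (hDB : S_DB) {c w μ : ℝ} (hw : 1 ≤ w) (hμ : 0 < μ) (y : ℝ) :
    Dn β c w y - DG k c w μ y = (∫ v : ℝ, Zt (y + v) * K1 k c w μ v) + Rn β c w y := by
  obtain ⟨h1, h2⟩ := hDB β k C0 hB c w y hw
  have h3 := (conv_all (K2_cont hB c w μ) hw hB.Cp.le (K2_bd hB hw hμ)).2.1 y
  have h4 : ∫ v : ℝ, Zt (y + v) * K1 k c w μ v =
      (∫ v : ℝ, Zt (y + v) * Kn k c w v) - ∫ v : ℝ, Zt (y + v) * K2 k c w μ v := by
    rw [← integral_sub h1 h3]
    refine integral_congr_ae (Eventually.of_forall fun v => ?_)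
    simp only [K1, K2]
    push_cast
    ring
  rw [h2, DG_eq, h4]
  ring

theorem Rn_bd {c w y : ℝ} (hw : 1 ≤ w) (hy : 0 < y) :
    ‖Rn β c w y‖ ≤ C0 * Real.exp ((c + w) / 2) / y ^ 10 := by
  have hw0 : 0 < w := by linarith
  have hC := hB.Cp
  have e1 : (∫ x : ℝ, (β x : ℂ) * cexp ((c + w * x) * (1 / 2 - (y : ℂ) * I))) =
      cexp (c * (1 / 2 - (y : ℂ) * I)) *
        ∫ x : ℝ, (β x : ℂ) * cexp (x * (w * (1 / 2 - (y : ℂ) * I))) := by
    rw [← integral_const_mul]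
    refine integral_congr_ae (Eventually.of_forall fun x => ?_)
    simp only
    rw [mul_left_comm, ← Complex.exp_add]
    congr 2
    ring
  unfold Rn
  rw [e1, norm_mul, norm_mul, Complex.norm_real, Real.norm_of_nonneg hw0.le, Complex.norm_exp]
  have e2 : ((c : ℂ) * (1 / 2 - (y : ℂ) * I)).re = c / 2 := by
    simp
    ring
  rw [e2]
  have h1 := hB.lap (w * (1 / 2 - (y : ℂ) * I))
  have e3 : ((w : ℂ) * (1 / 2 - (y : ℂ) * I)).re = w / 2 := by
    simp
    ring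
  have e4 : ((w : ℂ) * (1 / 2 - (y : ℂ) * I)).im = -(w * y) := by
    simp
  rw [e3, abs_of_pos (by linarith)] at h1
  have h2 : w * y ≤ ‖(w : ℂ) * (1 / 2 - (y : ℂ) * I)‖ := by
    have := Complex.abs_im_le_norm ((w : ℂ) * (1 / 2 - (y : ℂ) * I))
    rw [e4, abs_neg, abs_of_pos (by positivity)] at this
    exact this
  set z : ℂ := (w : ℂ) * (1 / 2 - (y : ℂ) * I) with hz
  have h3 : C0 * Real.exp (w / 2) / (1 + ‖z‖) ^ 10 ≤ C0 * Real.exp (w / 2) / (w * y ^ 10) := by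
    apply div_le_div_of_nonneg_left (by positivity) (by positivity)
    calc w * y ^ 10 ≤ w ^ 10 * y ^ 10 := by
          apply mul_le_mul_of_nonneg_right _ (by positivity)
          exact le_self_pow₀ hw (by norm_num)
      _ = (w * y) ^ 10 := (mul_pow _ _ _).symm
      _ ≤ (1 + ‖z‖) ^ 10 := pow_le_pow_left₀ (by positivity) (by linarith) 10
  calc w * (Real.exp (c / 2) * ‖∫ x : ℝ, (β x : ℂ) * cexp (x * z)‖) ≤
        w * (Real.exp (c / 2) * (C0 * Real.exp (w / 2) / (w * y ^ 10))) := by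
        apply mul_le_mul_of_nonneg_left _ hw0.le
        exact mul_le_mul_of_nonneg_left (h1.trans h3) (Real.exp_pos _).le
    _ = C0 * (Real.exp (c / 2) * Real.exp (w / 2)) / y ^ 10 := by
        field_simp
    _ = _ := by
        rw [← Real.exp_add]
        congr 3
        ring

end kernels2

/-! ### polynomials -/

theorem cpow_cont {n : ℕ} (hn : n ≠ 0) :
    Continuous (fun y : ℝ => (n : ℂ) ^ (-(1 / 2 + (y : ℂ) * I))) := by
  have h0 : (n : ℂ) ≠ 0 := Nat.cast_ne_zero.2 hn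
  refine Continuous.const_cpow ?_ (Or.inl h0)
  fun_prop

theorem Dn_cont (β : ℝ → ℝ) (c w : ℝ) : Continuous (Dn β c w) := by
  unfold Dn
  refine continuous_finsetSum _ fun n hn => ?_
  rw [Finset.mem_Icc] at hn
  exact continuous_const.mul (cpow_cont (by omega))

theorem Pn_cont (β : ℝ → ℝ) (c w : ℝ) : Continuous (Pn β c w) := by
  unfold Pn
  refine continuous_finsetSum _ fun n hn => ?_
  have : n.Prime := by
    unfold Pb at hn
    rw [Finset.mem_filter] at hn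
    exact hn.2.1
  exact continuous_const.mul (cpow_cont this.ne_zero)

theorem Mt_cont (θ T : ℝ) : Continuous (Mt θ T) := by
  unfold Mt MT Pool.Agent.H448R2.GC.fs
  refine continuous_finsetSum _ fun n hn => ?_
  rw [Finset.mem_Icc] at hn
  exact continuous_const.mul (cpow_cont (by omega))

theorem norm_cpow_half {n : ℕ} (hn : n ≠ 0) (y : ℝ) :
    ‖(n : ℂ) ^ (-(1 / 2 + (y : ℂ) * I))‖ = (n : ℝ) ^ (-(1 / 2) : ℝ) := by
  rw [Complex.norm_natCast_cpow_of_pos (Nat.pos_of_ne_zero hn)]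
  congr 1
  simp

theorem Mt_bd {θ T : ℝ} (hθ : 0 < θ) (hθ1 : θ ≤ 1) (hT : 1 < T) (y : ℝ) : ‖Mt θ T y‖ ≤ T ^ 2 := by
  have hL : 0 < Real.log T := Real.log_pos hT
  unfold Mt MT Pool.Agent.H448R2.GC.fs
  have hc : 0 < θ * Real.log T / 5 := by positivity
  have h1 : ∀ n ∈ Finset.Icc 1 ⌊Real.exp (θ * Real.log T + (5 : ℕ) * (θ * Real.log T / 5))⌋₊,
      ‖(((ArithmeticFunction.moebius n : ℤ) : ℂ)) *
        (Pool.Agent.H448R2.GC.cu 5 (θ * Real.log T / 5) (Real.log n - θ * Real.log T) : ℂ) *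
        (n : ℂ) ^ (-(1 / 2 + (y : ℂ) * I))‖ ≤ 1 := by
    intro n hn
    rw [Finset.mem_Icc] at hn
    rw [norm_mul, norm_mul]
    have a1 : ‖(((ArithmeticFunction.moebius n : ℤ) : ℂ))‖ ≤ 1 := by
      rw [Complex.norm_intCast]
      exact_mod_cast ArithmeticFunction.abs_moebius_le_one
    have a2 : ‖(Pool.Agent.H448R2.GC.cu 5 (θ * Real.log T / 5)
        (Real.log n - θ * Real.log T) : ℂ)‖ ≤ 1 := by
      rw [Complex.norm_real, Real.norm_of_nonneg (Pool.Agent.H448R2.GC.cu_nonneg _ _ _ hc)]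
      exact Pool.Agent.H448R2.GC.cu_le_one _ _ _ hc
    have a3 : ‖(n : ℂ) ^ (-(1 / 2 + (y : ℂ) * I))‖ ≤ 1 := by
      rw [norm_cpow_half (by omega)]
      exact Real.rpow_le_one_of_one_le_of_nonpos (by exact_mod_cast hn.1) (by norm_num)
    exact mul_le_one₀ (mul_le_one₀ a1 (norm_nonneg _) a2) (norm_nonneg _) a3
  refine (norm_sum_le_of_le _ h1).trans ?_
  rw [Finset.sum_const, Nat.card_Icc, nsmul_eq_mul, mul_one, Nat.add_sub_cancel]
  refine (Nat.floor_le (Real.exp_pos _).le).trans ?_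
  have e : T ^ 2 = Real.exp (2 * Real.log T) := by
    rw [mul_comm, Real.exp_mul, Real.exp_log (by linarith)]
    norm_num
  rw [e, Real.exp_le_exp]
  push_cast
  nlinarith

/-! ### the prime polynomial -/

theorem mem_Pb {c w : ℝ} {p : ℕ} (hp : p ∈ Pb c w) : p.Prime ∧ c - w ≤ Real.log p ∧
    Real.log p ≤ c + w ∧ (p : ℝ) ≤ Real.exp (c + w) := by
  unfold Pb at hp
  rw [Finset.mem_filter, Finset.mem_Icc] at hp
  have h1 : (p : ℝ) ≤ Real.exp (c + w) := (Nat.le_floor_iff (Real.exp_pos _).le).1 hp.1.2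
  have hp0 : 0 < (p : ℝ) := by exact_mod_cast hp.2.1.pos
  refine ⟨hp.2.1, hp.2.2, ?_, h1⟩
  rw [← Real.log_exp (c + w)]
  exact Real.log_le_log hp0 h1

theorem cpow_split {p : ℕ} (hp : p ≠ 0) (y : ℝ) : (p : ℂ) ^ (-(1 / 2 + (y : ℂ) * I)) =
    (((p : ℝ) ^ (-(1 / 2) : ℝ) : ℝ) : ℂ) * cexp (-(I * Real.log p * y)) := by
  have h0 : (p : ℂ) ≠ 0 := Nat.cast_ne_zero.2 hp
  have hp0 : (0 : ℝ) < p := by exact_mod_cast Nat.pos_of_ne_zero hp
  rw [Complex.cpow_def_of_ne_zero h0, Real.rpow_def_of_pos hp0, ← Complex.natCast_log]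
  push_cast
  rw [← Complex.exp_add]
  congr 1
  ring

/-- the coefficients -/
noncomputable def ap (β : ℝ → ℝ) (c w : ℝ) (p : ℕ) : ℂ :=
  (β ((Real.log p - c) / w) : ℂ) * (((p : ℝ) ^ (-(1 / 2) : ℝ) : ℝ) : ℂ)

theorem Pn_eq (β : ℝ → ℝ) (c w y : ℝ) :
    Pn β c w y = ∑ p ∈ Pb c w, ap β c w p * cexp (-(I * Real.log p * y)) := by
  unfold Pn ap
  refine Finset.sum_congr rfl fun p hp => ?_
  rw [cpow_split (mem_Pb hp).1.ne_zero, ← mul_assoc]

theorem ap_sq {β : ℝ → ℝ} {k : ℝ → ℂ} {C0 : ℝ} (hB : Bump β k C0) (c w : ℝ) {p : ℕ}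
    (hp : p ≠ 0) : ‖ap β c w p‖ ^ 2 ≤ 1 / p := by
  have hp0 : (0 : ℝ) < p := by exact_mod_cast Nat.pos_of_ne_zero hp
  unfold ap
  rw [norm_mul, mul_pow, Complex.norm_real, Complex.norm_real,
    Real.norm_of_nonneg (hB.nonneg _), Real.norm_of_nonneg (Real.rpow_nonneg hp0.le _)]
  have h1 : ((p : ℝ) ^ (-(1 / 2) : ℝ)) ^ 2 = 1 / p := by
    rw [← Real.rpow_natCast, ← Real.rpow_mul hp0.le]
    norm_num
    exact Real.rpow_neg_one _
  rw [h1]
  have h2 : β ((Real.log p - c) / w) ^ 2 ≤ 1 := pow_le_one₀ (hB.nonneg _) (hB.le_one _)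
  calc β ((Real.log p - c) / w) ^ 2 * (1 / p) ≤ 1 * (1 / p) :=
        mul_le_mul_of_nonneg_right h2 (by positivity)
    _ = _ := one_mul _

theorem gap {p q : ℕ} (hp : 0 < p) (hpq : p < q) {X : ℝ} (hq : (q : ℝ) ≤ X) :
    1 / X ≤ Real.log q - Real.log p := by
  have hp0 : (0 : ℝ) < p := by exact_mod_cast hp
  have hq0 : (0 : ℝ) < q := by exact_mod_cast hp.trans hpq
  rw [← Real.log_div hq0.ne' hp0.ne']
  have h1 := Real.one_sub_inv_le_log_of_pos (x := (q : ℝ) / p) (by positivity)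
  refine le_trans ?_ h1
  have h2 : (p : ℝ) + 1 ≤ q := by exact_mod_cast hpq
  rw [inv_div]
  have h3 : 1 / X ≤ 1 / q := one_div_le_one_div_of_le hq0 hq
  refine h3.trans ?_
  rw [div_le_iff₀ hq0, sub_mul, div_mul_cancel₀ _ hq0.ne']
  linarith

theorem spc {c w X : ℝ} (hX : Real.exp (c + w) ≤ X) : ∀ i ∈ Pb c w, ∀ j ∈ Pb c w, i ≠ j →
    1 / X ≤ |Real.log i - Real.log j| := by
  intro p hp q hq hne
  obtain ⟨a1, -, -, a2⟩ := mem_Pb hp
  obtain ⟨b1, -, -, b2⟩ := mem_Pb hq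
  rcases lt_or_gt_of_ne hne with h | h
  · rw [abs_sub_comm]
    exact (gap a1.pos h (b2.trans hX)).trans (le_abs_self _)
  · exact (gap b1.pos h (a2.trans hX)).trans (le_abs_self _)

theorem card_Pb (c w : ℝ) : ((Pb c w).card : ℝ) ≤ Real.exp (c + w) := by
  have h1 : (Pb c w).card ≤ ⌊Real.exp (c + w)⌋₊ := by
    unfold Pb
    refine (Finset.card_filter_le _ _).trans ?_
    rw [Nat.card_Icc, Nat.add_sub_cancel]
  exact (Nat.cast_le.2 h1).trans (Nat.floor_le (Real.exp_pos _).le)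

theorem num_ineq {L : ℝ} (hL : 400 ≤ L) : 16 * L * (1 + L / 2) ≤ Real.exp (L / 2) := by
  have h := Real.pow_div_factorial_le_exp (x := L / 2) (by linarith) 3
  refine le_trans ?_ h
  have e : ((Nat.factorial 3 : ℕ) : ℝ) = 6 := by norm_num [Nat.factorial]
  rw [e]
  nlinarith [mul_nonneg (by linarith : 0 ≤ L) (by linarith : 0 ≤ L - 400), mul_nonneg
    (mul_nonneg (by linarith : 0 ≤ L) (by linarith : 0 ≤ L)) (by linarith : 0 ≤ L - 400)]

theorem pn_sq (hMVT : S_MVT) {β : ℝ → ℝ} {k : ℝ → ℂ} {C0 : ℝ} (hB : Bump β k C0) {T c w : ℝ}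
    (hT : 0 < T) (hL : 400 ≤ Real.log T) (hc : c + w ≤ Real.log T / 2) :
    ∫ y in (T - T / (4 * Real.log T))..(T + T / (4 * Real.log T)), ‖Pn β c w y‖ ^ 2 ≤
      (T / Real.log T) * ∑ p ∈ Pb c w, 1 / (p : ℝ) := by
  set L := Real.log T with hLd
  have hL0 : 0 < L := by linarith
  have hTe : T = Real.exp (L / 2) * Real.exp (L / 2) := by
    rw [← Real.exp_add, add_halves, hLd, Real.exp_log hT]
  have hX : Real.exp (c + w) ≤ Real.exp (L / 2) := Real.exp_le_exp.2 hc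
  have h1 := hMVT ℕ (Pb c w) (fun p => Real.log p) (ap β c w) (1 / Real.exp (L / 2))
    (T - T / (4 * L)) (T + T / (4 * L)) (by positivity) (by
      have : 0 ≤ T / (4 * L) := by positivity
      linarith) (spc hX)
  have h2 : (∫ y in (T - T / (4 * L))..(T + T / (4 * L)), ‖Pn β c w y‖ ^ 2) =
      ∫ t in (T - T / (4 * L))..(T + T / (4 * L)),
        ‖∑ i ∈ Pb c w, ap β c w i * cexp (-(I * ((Real.log i : ℝ) : ℂ) * t))‖ ^ 2 := by
    apply intervalIntegral.integral_congr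
    intro y _
    simp only
    rw [Pn_eq]
  rw [h2]
  have h3 := (abs_le.1 h1).2
  set S := ∑ i ∈ Pb c w, ‖ap β c w i‖ ^ 2 with hS
  have hS0 : 0 ≤ S := Finset.sum_nonneg fun _ _ => sq_nonneg _
  have hS1 : S ≤ ∑ p ∈ Pb c w, 1 / (p : ℝ) :=
    Finset.sum_le_sum fun p hp => ap_sq hB c w (mem_Pb hp).1.ne_zero
  have h4 : Real.log ((Pb c w).card : ℝ) ≤ L / 2 := by
    rcases Nat.eq_zero_or_pos (Pb c w).card with h0 | h0
    · rw [h0]
      simp only [Nat.cast_zero, Real.log_zero]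
      linarith
    · have h5 : (0 : ℝ) < (Pb c w).card := by exact_mod_cast h0
      calc Real.log ((Pb c w).card : ℝ) ≤ Real.log (Real.exp (c + w)) :=
            Real.log_le_log h5 (card_Pb c w)
        _ = c + w := Real.log_exp _
        _ ≤ L / 2 := hc
  have h6 : 8 / (1 / Real.exp (L / 2)) * (1 + Real.log ((Pb c w).card : ℝ)) ≤ T / (2 * L) := by
    have h7 := num_ineq hL
    have h8 : 0 < Real.exp (L / 2) := Real.exp_pos _
    rw [div_div_eq_mul_div, div_one, le_div_iff₀ (by positivity)]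
    conv_rhs => rw [hTe]
    calc 8 * Real.exp (L / 2) * (1 + Real.log ((Pb c w).card : ℝ)) * (2 * L) ≤
          8 * Real.exp (L / 2) * (1 + L / 2) * (2 * L) := by gcongr
      _ = Real.exp (L / 2) * (16 * L * (1 + L / 2)) := by ring
      _ ≤ Real.exp (L / 2) * Real.exp (L / 2) := mul_le_mul_of_nonneg_left h7 h8.le
  have h9 : 8 / (1 / Real.exp (L / 2)) * (1 + Real.log ((Pb c w).card : ℝ)) * S ≤
      T / (2 * L) * S := mul_le_mul_of_nonneg_right h6 hS0
  have h10 : (T + T / (4 * L) - (T - T / (4 * L))) * S = T / (2 * L) * S := by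
    field_simp
    ring
  rw [h10] at h3
  have h11 : T / L * S = T / (2 * L) * S + T / (2 * L) * S := by
    field_simp
    ring
  have h12 : T / L * S ≤ T / L * ∑ p ∈ Pb c w, 1 / (p : ℝ) :=
    mul_le_mul_of_nonneg_left hS1 (by positivity)
  linarith

theorem pb_sum {CP : ℝ} (hCP : 0 < CP) (hP : ∀ (u w x : ℝ) (N : ℕ), 1 ≤ u → 0 < w → w ≤ 1 →
    ∑ p ∈ (Finset.Icc 1 N).filter (fun p : ℕ => p.Prime ∧ u ≤ Real.log p),
      Real.exp (-(w ^ 2 * (x - Real.log p) ^ 2)) / p ≤ CP / (w * u)) {L c w : ℝ} (hL : 4 ≤ L)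
    (h1 : L / 4 ≤ c - w) (h2 : w ≤ L) (hw : 0 ≤ w) :
    ∑ p ∈ Pb c w, 1 / (p : ℝ) ≤ 4 * Real.exp 1 * CP := by
  have hL0 : 0 < L := by linarith
  have h3 := hP (c - w) (1 / L) c ⌊Real.exp (c + w)⌋₊ (by linarith) (by positivity) (by
    rw [div_le_one hL0]; linarith)
  have h4 : ∑ p ∈ Pb c w, 1 / (p : ℝ) ≤
      ∑ p ∈ Pb c w, Real.exp 1 * (Real.exp (-((1 / L) ^ 2 * (c - Real.log p) ^ 2)) / p) := by
    refine Finset.sum_le_sum fun p hp => ?_
    obtain ⟨a1, a2, a3, -⟩ := mem_Pb hp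
    have hp0 : (0 : ℝ) < p := by exact_mod_cast a1.pos
    rw [← mul_div_assoc, ← Real.exp_add]
    apply div_le_div_of_nonneg_right _ hp0.le
    apply Real.one_le_exp
    have a4 : (c - Real.log p) ^ 2 ≤ L ^ 2 := by
      apply sq_le_sq'
      · linarith
      · linarith
    have a5 : (1 / L) ^ 2 * (c - Real.log p) ^ 2 ≤ 1 := by
      rw [one_div, inv_pow, inv_mul_le_iff₀ (by positivity), mul_one]
      exact a4
    linarith
  rw [← Finset.mul_sum] at h4
  refine h4.trans ?_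
  have h5 : CP / (1 / L * (c - w)) ≤ 4 * CP := by
    rw [div_le_iff₀ (by
      have : 0 < c - w := by linarith
      positivity)]
    have h6 : 1 / 4 ≤ 1 / L * (c - w) := by
      rw [one_div_mul_eq_div, le_div_iff₀ hL0]
      linarith
    nlinarith
  calc Real.exp 1 * ∑ p ∈ Pb c w, Real.exp (-((1 / L) ^ 2 * (c - Real.log p) ^ 2)) / p ≤
        Real.exp 1 * (4 * CP) := mul_le_mul_of_nonneg_left (h3.trans h5) (Real.exp_pos _).le
    _ = _ := by ring

/-! ### the main statement -/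

theorem amgm {M x z : ℝ} (hM : 0 < M) : x * z ≤ M / 2 * x ^ 2 + 1 / (2 * M) * z ^ 2 := by
  have h : 0 ≤ (M * x - z) ^ 2 := sq_nonneg _
  have e : M / 2 * x ^ 2 + 1 / (2 * M) * z ^ 2 - x * z = (M * x - z) ^ 2 / (2 * M) := by
    field_simp
    ring
  have : 0 ≤ (M * x - z) ^ 2 / (2 * M) := by positivity
  linarith

theorem na (h1 : S_DB) (h2 : S_KER) (h3 : S_MVT) (h4 : S_PR) : S_NA := by
  intro β k C0 hB ε hε
  obtain ⟨θ0, hθ0, hK⟩ := h2
  obtain ⟨⟨CP, hCP, hP⟩, -⟩ := h4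
  have hC0 := hB.Cp
  refine ⟨min θ0 1, lt_min hθ0 one_pos, fun θ hθ hθ1 => ?_⟩
  obtain ⟨CK, T1, hCK, hT1, hKer⟩ := hK θ hθ (hθ1.trans (min_le_left _ _))
  have hθ2 : θ ≤ 1 := hθ1.trans (min_le_right _ _)
  have hpi := Real.pi_pos
  have he1 := Real.exp_pos 1
  set C2 := 4 * Real.exp 1 * CP with hC2
  set A1 := C0 / (8 * ε ^ 9) with hA1
  set A2 := C0 / ε ^ 8 with hA2
  have hC2p : 0 < C2 := by positivity
  have hA1p : 0 < A1 := by positivity
  have hA2p : 0 < A2 := by positivity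
  set D1 := 15 * C0 * Real.pi with hD1
  set D3 := (CK * A1 ^ 2 + C2) / 2 + 512 * C0 * (1 + C2) with hD3
  set D4 := (CK * A2 ^ 2 + C2) / 2 with hD4
  have hD1p : 0 < D1 := by positivity
  have hD3p : 0 < D3 := by positivity
  have hD4p : 0 < D4 := by positivity
  refine ⟨D1 + C2 + D3 + D4, max T1 (Real.exp (400 + 1 / ε)), by positivity,
    hT1.trans (le_max_left _ _), ?_⟩
  intro T c w μ hT hBd hμ hμ1 hμ2
  have hTK := (le_max_left _ _).trans hT
  have hTe := (le_max_right _ _).trans hT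
  have hT0 : 0 < T := by linarith
  have hT1' : 1 < T := by linarith
  have hL : 400 + 1 / ε ≤ Real.log T := by
    rw [← Real.log_exp (400 + 1 / ε)]
    exact Real.log_le_log (Real.exp_pos _) hTe
  have hKer2 := hKer T hTK
  obtain ⟨-, hw1, hlo, hhi⟩ := hBd
  set L := Real.log T with hLd
  have hie : 0 < 1 / ε := by positivity
  have hL4 : 400 ≤ L := by linarith
  have hL0 : 0 < L := by linarith
  have heL : 0 < ε * L := by positivity
  have hw : 1 ≤ w := by
    refine le_trans ?_ hw1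
    have : 1 / ε ≤ L := by linarith
    rw [div_le_iff₀ hε] at this
    linarith
  have hw0 : 0 < w := by linarith
  have hhi2 : c + w ≤ L / 2 - ε * L := by linarith
  have hε1 : ε ≤ 1 := by
    by_contra hc
    rw [not_le] at hc
    nlinarith
  have hwL : w ≤ L := by linarith
  have hcw : c + w ≤ L / 2 := by linarith
  -- intervals
  set a := T - T / (4 * L) with ha
  set b := T + T / (4 * L) with hb
  have hTL : 0 < T / L := by positivity
  have hab : a ≤ b := by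
    have : 0 ≤ T / (4 * L) := by positivity
    linarith
  have hba : b - a ≤ T / L := by
    have : b - a = T / L / 2 := by
      rw [ha, hb]
      field_simp
      ring
    rw [this]
    linarith
  have hya : ∀ y ∈ Icc a b, T / 2 ≤ y := by
    intro y hy
    have h5 : T / (4 * L) ≤ T / 2 := by
      apply div_le_div_of_nonneg_left hT0.le (by norm_num)
      linarith
    linarith [hy.1]
  -- the prime polynomial
  have hPn : ∫ y in a..b, ‖Pn β c w y‖ ^ 2 ≤ C2 * (T / L) := by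
    refine (pn_sq h3 hB hT0 hL4 hcw).trans ?_
    rw [mul_comm C2]
    exact mul_le_mul_of_nonneg_left (pb_sum hCP hP (by linarith) hlo hwL hw0.le) hTL.le
  -- the convolutions
  obtain ⟨f1c, f1i, -⟩ := conv_all (K1_cont hB c w μ) hw hC0.le (K1_bd hB hw hμ)
  obtain ⟨f2c, f2i, f2b⟩ := conv_all (K2_cont hB c w μ) hw hC0.le (K2_bd hB hw hμ)
  set F : ℝ → ℂ := fun y => ∫ v : ℝ, Zt (y + v) * K1 k c w μ v with hF
  have hDG : DG k c w μ = fun y => ∫ v : ℝ, Zt (y + v) * K2 k c w μ v := by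
    funext y
    exact DG_eq k c w μ y
  have hDGc : Continuous (DG k c w μ) := by rw [hDG]; exact f2c
  set M := μ * L ^ 2 with hM
  have hM0 : 0 < M := by positivity
  have hML : M ≤ L ^ 2 := by
    rw [hM]
    exact mul_le_of_le_one_left (by positivity) hμ2
  have hkF : ∫ y in a..b, (‖F y‖ * ‖Mt θ T y‖) ^ 2 ≤ CK * (A1 / M) ^ 2 * (T / L) := by
    apply hKer2 (K1 k c w μ) (A1 / M) (K1_cont hB c w μ) (by positivity)
    intro v
    exact K1_bd2 hB hε hε1 hL0 hw hw1 hμ v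
  have hkG : ∫ y in a..b, (‖DG k c w μ y‖ * ‖Mt θ T y‖) ^ 2 ≤ CK * A2 ^ 2 * (T / L) := by
    rw [hDG]
    apply hKer2 (K2 k c w μ) A2 (K2_cont hB c w μ) (by positivity)
    intro v
    exact K2_bd2 hB hε hε1 hL0 hw hw1 hwL hμ v
  have hMc := Mt_cont θ T
  have hPc := Pn_cont β c w
  have hDc := Dn_cont β c w
  have iP : IntervalIntegrable (fun y => ‖Pn β c w y‖ ^ 2) volume a b :=
    (hPc.norm.pow 2).intervalIntegrable _ _
  have iF : IntervalIntegrable (fun y => (‖F y‖ * ‖Mt θ T y‖) ^ 2) volume a b :=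
    ((f1c.norm.mul hMc.norm).pow 2).intervalIntegrable _ _
  have iG : IntervalIntegrable (fun y => (‖DG k c w μ y‖ * ‖Mt θ T y‖) ^ 2) volume a b :=
    ((hDGc.norm.mul hMc.norm).pow 2).intervalIntegrable _ _
  refine ⟨hDGc, ?_, ?_, ?_, ?_⟩
  · intro y
    rw [DG_eq]
    refine (f2b y).trans ?_
    have h5 := abs_nonneg y
    have h6 : D1 * (1 + |y|) ≤ (D1 + C2 + D3 + D4) * (2 + |y|) :=
      mul_le_mul (by linarith) (by linarith) (by linarith) (by positivity)
    calc 15 * C0 * (1 + |y|) * Real.pi = D1 * (1 + |y|) := by rw [hD1]; ring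
      _ ≤ _ := h6
  · set ρ := 1024 * C0 / L ^ 2 with hρ
    have hρ0 : 0 < ρ := by positivity
    have hpt : ∀ y ∈ Icc a b, ‖(Dn β c w y - DG k c w μ y) * Mt θ T y * Pn β c w y‖ ≤
        M / 2 * (‖F y‖ * ‖Mt θ T y‖) ^ 2 + (1 / (2 * M) + ρ / 2) * ‖Pn β c w y‖ ^ 2 + ρ / 2 := by
      intro y hy
      have hyT := hya y hy
      have hy0 : 0 < y := by linarith
      rw [diff_eq hB h1 hw hμ y, norm_mul, norm_mul]
      have b1 : ‖Rn β c w y‖ * ‖Mt θ T y‖ ≤ ρ := by
        have c1 := Rn_bd hB (c := c) hw hy0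
        have c2 : Real.exp ((c + w) / 2) ≤ T := by
          calc Real.exp ((c + w) / 2) ≤ Real.exp L := Real.exp_le_exp.2 (by linarith)
            _ = T := Real.exp_log hT0
        have c3 : (T / 2) ^ 10 ≤ y ^ 10 := pow_le_pow_left₀ (by positivity) hyT 10
        have c4 : ‖Rn β c w y‖ ≤ 1024 * C0 / T ^ 9 := by
          refine c1.trans ?_
          calc C0 * Real.exp ((c + w) / 2) / y ^ 10 ≤ C0 * T / (T / 2) ^ 10 := by
                apply div_le_div₀ (by positivity) _ (by positivity) c3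
                exact mul_le_mul_of_nonneg_left c2 hC0.le
            _ = _ := by field_simp; norm_num
        have c5 := Mt_bd (T := T) hθ hθ2 hT1' y
        have c6 : L ^ 2 ≤ T := by
          have d1 := Real.quadratic_le_exp_of_nonneg (x := L / 2) (by linarith)
          have d2 : L ≤ Real.exp (L / 2) := by nlinarith [sq_nonneg (L - 2)]
          calc L ^ 2 ≤ Real.exp (L / 2) ^ 2 := pow_le_pow_left₀ hL0.le d2 2
            _ = T := by
              rw [sq, ← Real.exp_add, add_halves, hLd, Real.exp_log hT0]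
        calc ‖Rn β c w y‖ * ‖Mt θ T y‖ ≤ 1024 * C0 / T ^ 9 * T ^ 2 :=
              mul_le_mul c4 c5 (norm_nonneg _) (by positivity)
          _ = 1024 * C0 / T ^ 7 := by field_simp
          _ ≤ 1024 * C0 / L ^ 2 := by
              apply div_le_div_of_nonneg_left (by positivity) (by positivity)
              exact c6.trans (le_self_pow₀ hT1'.le (by norm_num))
      have b2 : ‖F y + Rn β c w y‖ ≤ ‖F y‖ + ‖Rn β c w y‖ := norm_add_le _ _
      have b3 := amgm (x := ‖F y‖ * ‖Mt θ T y‖) (z := ‖Pn β c w y‖) hM0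
      have b4 : ‖Rn β c w y‖ * ‖Mt θ T y‖ * ‖Pn β c w y‖ ≤
          ρ / 2 * ‖Pn β c w y‖ ^ 2 + ρ / 2 := by
        refine (mul_le_mul_of_nonneg_right b1 (norm_nonneg _)).trans ?_
        nlinarith [sq_nonneg (‖Pn β c w y‖ - 1)]
      calc ‖F y + Rn β c w y‖ * ‖Mt θ T y‖ * ‖Pn β c w y‖ ≤
            (‖F y‖ + ‖Rn β c w y‖) * ‖Mt θ T y‖ * ‖Pn β c w y‖ := by gcongr
        _ = ‖F y‖ * ‖Mt θ T y‖ * ‖Pn β c w y‖ +
            ‖Rn β c w y‖ * ‖Mt θ T y‖ * ‖Pn β c w y‖ := by ring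
        _ ≤ _ := by linarith
    have hint : ∫ y in a..b, ‖(Dn β c w y - DG k c w μ y) * Mt θ T y * Pn β c w y‖ ≤
        ∫ y in a..b, (M / 2 * (‖F y‖ * ‖Mt θ T y‖) ^ 2 +
          (1 / (2 * M) + ρ / 2) * ‖Pn β c w y‖ ^ 2 + ρ / 2) := by
      apply intervalIntegral.integral_mono_on hab
      · exact ((((hDc.sub hDGc).mul hMc).mul hPc).norm).intervalIntegrable _ _
      · exact ((iF.const_mul _).add (iP.const_mul _)).add intervalIntegrable_const
      · exact hpt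
    refine hint.trans ?_
    rw [intervalIntegral.integral_add ((iF.const_mul _).add (iP.const_mul _))
      intervalIntegrable_const, intervalIntegral.integral_add (iF.const_mul _) (iP.const_mul _),
      intervalIntegral.integral_const_mul, intervalIntegral.integral_const_mul,
      intervalIntegral.integral_const, smul_eq_mul]
    have e1 : M / 2 * ∫ y in a..b, (‖F y‖ * ‖Mt θ T y‖) ^ 2 ≤
        M / 2 * (CK * (A1 / M) ^ 2 * (T / L)) := mul_le_mul_of_nonneg_left hkF (by positivity)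
    have e2 : (1 / (2 * M) + ρ / 2) * ∫ y in a..b, ‖Pn β c w y‖ ^ 2 ≤
        (1 / (2 * M) + ρ / 2) * (C2 * (T / L)) := mul_le_mul_of_nonneg_left hPn (by positivity)
    have e3 : (b - a) * (ρ / 2) ≤ T / L * (ρ / 2) :=
      mul_le_mul_of_nonneg_right hba (by positivity)
    have e4 : ρ ≤ 1024 * C0 / M := div_le_div_of_nonneg_left (by positivity) hM0 hML
    have e5 : ρ / 2 * ((1 + C2) * (T / L)) ≤ 1024 * C0 / M / 2 * ((1 + C2) * (T / L)) := by
      apply mul_le_mul_of_nonneg_right _ (by positivity)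
      linarith
    have e6 : M / 2 * (CK * (A1 / M) ^ 2 * (T / L)) + 1 / (2 * M) * (C2 * (T / L)) +
        1024 * C0 / M / 2 * ((1 + C2) * (T / L)) = D3 / M * (T / L) := by
      rw [hD3]
      field_simp
      ring
    have e7 : D3 / M * (T / L) ≤ (D1 + C2 + D3 + D4) / M * (T / L) := by
      apply mul_le_mul_of_nonneg_right _ hTL.le
      apply div_le_div_of_nonneg_right _ hM0.le
      linarith
    linarith
  · have hpt : ∀ y ∈ Icc a b, ‖DG k c w μ y * Mt θ T y * Pn β c w y‖ ≤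
        1 / 2 * (‖DG k c w μ y‖ * ‖Mt θ T y‖) ^ 2 + 1 / 2 * ‖Pn β c w y‖ ^ 2 := by
      intro y _
      rw [norm_mul, norm_mul]
      have := amgm (x := ‖DG k c w μ y‖ * ‖Mt θ T y‖) (z := ‖Pn β c w y‖) one_pos
      rw [mul_one] at this
      exact this
    have hint : ∫ y in a..b, ‖DG k c w μ y * Mt θ T y * Pn β c w y‖ ≤
        ∫ y in a..b, (1 / 2 * (‖DG k c w μ y‖ * ‖Mt θ T y‖) ^ 2 +
          1 / 2 * ‖Pn β c w y‖ ^ 2) := by
      apply intervalIntegral.integral_mono_on hab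
      · exact (((hDGc.mul hMc).mul hPc).norm).intervalIntegrable _ _
      · exact (iG.const_mul _).add (iP.const_mul _)
      · exact hpt
    refine hint.trans ?_
    rw [intervalIntegral.integral_add (iG.const_mul _) (iP.const_mul _),
      intervalIntegral.integral_const_mul, intervalIntegral.integral_const_mul]
    have e1 : D4 * (T / L) = 1 / 2 * (CK * A2 ^ 2 * (T / L)) + 1 / 2 * (C2 * (T / L)) := by
      rw [hD4]
      ring
    have e2 : D4 * (T / L) ≤ (D1 + C2 + D3 + D4) * (T / L) :=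
      mul_le_mul_of_nonneg_right (by linarith) hTL.le
    linarith
  · refine hPn.trans ?_
    exact mul_le_mul_of_nonneg_right (by linarith) hTL.le

end Pool.Agent.H127.HD.NA
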